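import Pool.Agent.T2H17.LO.Final

/-!
# MP_6cded1_nt: the true order of the `L^1` norm for typical twists

For all `R ≥ 1`, all unimodular `w(n)`, every interval `[T₀, T₀ + T]` with `T ≥ R ^ 4` and every `δ > 0`: the set of
the `t` in the interval for which

`∫_0^1 |∑_{n ≤ R} μ(n) w(n) n^{it} e(nx)| dx < (δ / 40) √R`

has measure at most `δ² T`. (The upper bound `√R` is Parseval's.)

Proof: `3 l² ‖S‖_2² ≤ 2 l³ ‖S‖_1 + ‖S‖_4⁴` for all `l > 0`, `‖S‖_2² ≥ R / 4`, and the mean of `‖S‖_4⁴` over `t` is at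
most `4 R²`, since `v₁ + v₂ = w₁ + w₂` and `v₁ v₂ = w₁ w₂` have only diagonal solutions and different products
of two integers up to `R` differ by a factor of at least `1 + R ^ (-2)`.
-/

set_option autoImplicit false

open MeasureTheory

namespace Pool.Agent.Results.MP_6cded1_nt.TypicalTwists

theorem result : ∀ w : ℕ → ℂ, (∀ n, ‖w n‖ = 1) → ∀ R : ℕ, 1 ≤ R → ∀ T₀ T δ : ℝ, 0 < δ → (R : ℝ) ^ 4 ≤ T →
    volume {t : ℝ | t ∈ Set.Icc T₀ (T₀ + T) ∧ ∫ x in (0:ℝ)..1,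
      ‖∑ n ∈ Finset.Icc 1 R, ((ArithmeticFunction.moebius n : ℤ) : ℂ) * w n * (n : ℂ) ^ ((t : ℂ) * Complex.I) *
        Complex.exp (2 * Real.pi * Complex.I * n * x)‖ < δ / 40 * Real.sqrt R} ≤
      ENNReal.ofReal (δ ^ 2 * T) :=
  fun w hw R hR T₀ T δ hδ hRT => Pool.Agent.T2H17.LO.mainMu w hw R hR T₀ T δ hδ hRT

end Pool.Agent.Results.MP_6cded1_nt.TypicalTwists
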